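import Mathlib
import Pool.Agent.H83.Rec

set_option autoImplicit false

namespace Pool.Agent.Results.MP_47dce7_gt.SHD

open Set Filter Topology

universe u

/-- `X` is homeomorphic to a closed subspace of a power of the real line. -/
def Realcompact (X : Type u) [TopologicalSpace X] : Prop :=
  ∃ (κ : Type u) (e : X → (κ → ℝ)), IsClosedEmbedding e

/-- Selectively highly divergent. -/
def IsSHD (Y : Type u) [TopologicalSpace Y] : Prop :=
  ∀ U : ℕ → Set Y, (∀ n, IsOpen (U n) ∧ (U n).Nonempty) →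
    ∃ x : ℕ → Y, (∀ n, x n ∈ U n) ∧
      ∀ φ : ℕ → ℕ, StrictMono φ → ∀ y, ¬ Tendsto (x ∘ φ) atTop (𝓝 y)

/-- The Stone-Cech remainder, a subspace of `StoneCech X`. -/
abbrev Remainder (X : Type u) [TopologicalSpace X] : Type u :=
  ((range (stoneCechUnit : X → StoneCech X))ᶜ : Set (StoneCech X))

variable {X : Type u} [TopologicalSpace X]

theorem exists_ext (f : X → ℝ) (hf : Continuous f) (h : ∀ x, f x ∈ Icc (0 : ℝ) 1) :
    ∃ F : StoneCech X → ℝ, Continuous F ∧ ∀ x, F (stoneCechUnit x) = f x := by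
  have hc : Continuous fun x => (⟨f x, h x⟩ : Icc (0 : ℝ) 1) := hf.subtype_mk _
  exact ⟨fun y => (stoneCechExtend hc y).1,
    continuous_subtype_val.comp (continuous_stoneCechExtend hc),
    fun x => by simp only [stoneCechExtend_stoneCechUnit]⟩

theorem exists_zero (hX : Realcompact X) {p : StoneCech X} (hp : p ∉ range stoneCechUnit) :
    ∃ h : StoneCech X → ℝ, Continuous h ∧ h p = 0 ∧ ∀ x, h (stoneCechUnit x) ≠ 0 := by
  obtain ⟨κ, e, he⟩ := hX
  by_contra hn
  push Not at hn
  haveI : (comap stoneCechUnit (𝓝 p)).NeBot :=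
      (denseRange_stoneCechUnit.nhdsWithin_neBot p).comap_of_range_mem self_mem_nhdsWithin |>.mono
        (comap_mono nhdsWithin_le_nhds)
  obtain ⟨𝒰, h𝒰⟩ := Ultrafilter.exists_le (comap stoneCechUnit (𝓝 p))
  have hU : Tendsto stoneCechUnit 𝒰 (𝓝 p) := tendsto_iff_comap.2 h𝒰
  have key : ∀ i, ∃ r, Tendsto (fun x => e x i) 𝒰 (𝓝 r) := by
    intro i
    have hc : Continuous fun x => e x i := (continuous_apply i).comp he.continuous
    obtain ⟨G, hG, hGx⟩ := exists_ext (fun x => 1 / (1 + |e x i|))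
      (continuous_const.div (continuous_const.add hc.abs) fun x => by positivity)
      (fun x => ⟨by positivity, by
        rw [div_le_one (by positivity)]; linarith [abs_nonneg (e x i)]⟩)
    have hp0 : G p ≠ 0 := fun h0 => by
      obtain ⟨x, hx⟩ := hn G hG h0
      rw [hGx] at hx
      exact absurd hx (by positivity)
    have ht : Tendsto (fun x => (G (stoneCechUnit x))⁻¹) 𝒰 (𝓝 (G p)⁻¹) :=
      ((hG.tendsto p).comp hU).inv₀ hp0
    have hb : ∀ᶠ x in (𝒰 : Filter X), e x i ∈ Icc (-(G p)⁻¹) (G p)⁻¹ := by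
      filter_upwards [ht.eventually (gt_mem_nhds (lt_add_one _))] with x hx
      rw [hGx, one_div, inv_inv] at hx
      exact abs_le.1 (by linarith)
    obtain ⟨r, -, hr⟩ := isCompact_Icc.ultrafilter_le_nhds (𝒰.map fun x => e x i)
      (le_principal_iff.2 hb)
    exact ⟨r, hr⟩
  choose r hr using key
  have ht : Tendsto e 𝒰 (𝓝 r) := tendsto_pi_nhds.2 hr
  obtain ⟨x, rfl⟩ : r ∈ range e :=
    he.isClosed_range.mem_of_tendsto ht (Eventually.of_forall fun x => mem_range_self x)
  have hx : Tendsto id (𝒰 : Filter X) (𝓝 x) := he.isInducing.tendsto_nhds_iff.2 ht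
  exact hp ⟨x, tendsto_nhds_unique ((continuous_stoneCechUnit.tendsto x).comp hx) hU⟩

theorem no_seq (hX : Realcompact X) {p : StoneCech X} (hp : p ∉ range stoneCechUnit)
    (x : ℕ → StoneCech X) (hx : ∀ n, x n ≠ p) : ¬ Tendsto x atTop (𝓝 p) := by
  intro ht
  obtain ⟨h, hh, hp0, hne⟩ := exists_zero hX hp
  have : ∀ n, ∃ v : C(StoneCech X, ℝ), v p = 0 ∧ v (x n) = 1 := fun n => by
    obtain ⟨v, h0, h1, -⟩ := exists_continuous_zero_one_of_isClosed (isClosed_singleton (x := p))
      (isClosed_singleton (x := x n)) (disjoint_singleton.2 (hx n).symm)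
    exact ⟨v, h0 rfl, h1 rfl⟩
  choose v hv0 hv1 using this
  let V : StoneCech X → ℝ × (ℕ → ℝ) := fun y => (h y, fun n => v n y)
  have hV : Continuous V := hh.prodMk (continuous_pi fun n => (v n).continuous)
  letI : MetricSpace (ℝ × (ℕ → ℝ)) := TopologicalSpace.metrizableSpaceMetric _
  let u : StoneCech X → ℝ := fun y => dist (V y) (V p)
  have hu : Continuous u := hV.dist continuous_const
  have hux : ∀ n, 0 < u (x n) := fun n => dist_pos.2 fun e => by
    have := congrFun (congrArg Prod.snd e) n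
    simp [V, hv0, hv1] at this
  have huX : ∀ y, 0 < u (stoneCechUnit y) := fun y => dist_pos.2 fun e =>
    hne y ((congrArg Prod.fst e).trans hp0)
  have hlim : Tendsto (fun n => u (x n)) atTop (𝓝 0) := by
    simpa [u, Function.comp_def] using (hu.tendsto p).comp ht
  obtain ⟨φ, hφ, hanti⟩ : ∃ φ : ℕ → ℕ, StrictMono φ ∧ StrictAnti fun k => u (x (φ k)) := by
    have : ∀ n, ∃ m, n < m ∧ u (x m) < u (x n) := fun n =>
      ((eventually_gt_atTop n).and (hlim.eventually (gt_mem_nhds (hux n)))).exists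
    choose g h1 h2 using this
    refine ⟨fun k => g^[k] 0, strictMono_nat_of_lt_succ fun k => ?_,
      strictAnti_nat_of_succ_lt fun k => ?_⟩ <;> simp only [Function.iterate_succ_apply']
    · exact h1 _
    · exact h2 _
  set t : ℕ → ℝ := fun k => u (x (φ k)) with ht_def
  have htl : Tendsto t atTop (𝓝 0) := hlim.comp hφ.tendsto_atTop
  have h2 : Tendsto (fun k : ℕ => 2 * k) atTop atTop :=
    tendsto_atTop_mono (fun k => by simp; omega) tendsto_id
  have h3 : Tendsto (fun k : ℕ => 2 * k + 1) atTop atTop :=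
    tendsto_atTop_mono (fun k => by simp; omega) tendsto_id
  let E : Set ℝ := insert 0 (range fun k => t (2 * k))
  let O : Set ℝ := insert 0 (range fun k => t (2 * k + 1))
  have hE : IsClosed E := (htl.comp h2).isCompact_insert_range.isClosed
  have hO : IsClosed O := (htl.comp h3).isCompact_insert_range.isClosed
  have hpos : ∀ a : ℝ, 0 < a → 0 < Metric.infDist a E + Metric.infDist a O := fun a ha => by
    by_cases h1 : a ∈ E
    · have h2 : a ∉ O := by
        rintro (h | ⟨k, hk⟩)
        · exact ha.ne' h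
        · rcases h1 with h | ⟨j, hj⟩
          · exact ha.ne' h
          · have := hanti.injective (hj.trans hk.symm)
            omega
      exact add_pos_of_nonneg_of_pos Metric.infDist_nonneg
        ((hO.notMem_iff_infDist_pos (insert_nonempty _ _)).1 h2)
    · exact add_pos_of_pos_of_nonneg ((hE.notMem_iff_infDist_pos (insert_nonempty _ _)).1 h1)
        Metric.infDist_nonneg
  let s : ℝ → ℝ := fun a => Metric.infDist a E / (Metric.infDist a E + Metric.infDist a O)
  have hs : ∀ a, 0 < a → ContinuousAt s a := fun a ha =>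
    (Metric.continuous_infDist_pt E).continuousAt.div ((Metric.continuous_infDist_pt E).add
      (Metric.continuous_infDist_pt O)).continuousAt (hpos a ha).ne'
  obtain ⟨F, hF, hFx⟩ := exists_ext (fun y => s (u (stoneCechUnit y)))
    (continuous_iff_continuousAt.2 fun y => (hs _ (huX y)).comp
      (f := fun y => u (stoneCechUnit y)) (hu.comp continuous_stoneCechUnit).continuousAt)
    (fun y => ⟨div_nonneg Metric.infDist_nonneg (hpos _ (huX y)).le,
      (div_le_one (hpos _ (huX y))).2 (le_add_of_nonneg_right Metric.infDist_nonneg)⟩)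
  have hFu : ∀ y, 0 < u y → F y = s (u y) := fun y hy => by
    haveI := denseRange_stoneCechUnit.nhdsWithin_neBot y
    refine tendsto_nhds_unique_of_eventuallyEq (l := 𝓝[range stoneCechUnit] y)
      (hF.continuousAt.mono_left nhdsWithin_le_nhds)
      (((hs _ hy).comp (f := u) hu.continuousAt).mono_left nhdsWithin_le_nhds) ?_
    filter_upwards [self_mem_nhdsWithin]
    rintro _ ⟨z, rfl⟩
    exact hFx z
  have hl : Tendsto (fun k => F (x (φ k))) atTop (𝓝 (F p)) :=
    ((hF.tendsto p).comp ht).comp hφ.tendsto_atTop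
  have e0 : ∀ k, F (x (φ (2 * k))) = 0 := fun k => by
    rw [hFu _ (hux _)]
    simp only [s]
    rw [Metric.infDist_zero_of_mem (show _ ∈ E from Or.inr ⟨k, rfl⟩), zero_div]
  have e1 : ∀ k, F (x (φ (2 * k + 1))) = 1 := fun k => by
    rw [hFu _ (hux _)]
    exact (div_eq_one_iff_eq (hpos _ (hux _)).ne').2 (by
      rw [Metric.infDist_zero_of_mem (show _ ∈ O from Or.inr ⟨k, rfl⟩), add_zero])
  have a0 : F p = 0 := tendsto_nhds_unique (hl.comp h2) (tendsto_const_nhds.congr fun k => (e0 k).symm)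
  have a1 : F p = 1 := tendsto_nhds_unique (hl.comp h3) (tendsto_const_nhds.congr fun k => (e1 k).symm)
  exact zero_ne_one (a0.symm.trans a1)

theorem infinite_open (hX : Realcompact X) {U : Set (Remainder X)} (hU : IsOpen U)
    (hne : U.Nonempty) : U.Infinite := by
  intro hfin
  obtain ⟨p, hp⟩ := hne
  have h1 : IsOpen ({p} : Set (Remainder X)) := by
    have := hU.sdiff (hfin.subset (diff_subset (t := {p}))).isClosed
    rwa [diff_diff_cancel_left (singleton_subset_iff.2 hp)] at this
  obtain ⟨O, hO, hOp⟩ := h1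
  have hpO : p.1 ∈ O := (hOp ▸ mem_singleton p : p ∈ Subtype.val ⁻¹' O)
  obtain ⟨h, hh, hp0, hne⟩ := exists_zero hX p.2
  obtain ⟨v, h0, h1, -⟩ := exists_continuous_zero_one_of_isClosed (isClosed_singleton (x := p.1))
    hO.isClosed_compl (disjoint_singleton_left.2 fun h => h hpO)
  let u : StoneCech X → ℝ := fun y => |h y| + |v y|
  have hu : Continuous u := hh.abs.add v.continuous.abs
  have hz : ∀ y, u y = 0 → y = p.1 := fun y hy => by
    have a1 : h y = 0 := abs_eq_zero.1 (by linarith [abs_nonneg (h y), abs_nonneg (v y)])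
    have a2 : v y = 0 := abs_eq_zero.1 (by linarith [abs_nonneg (h y), abs_nonneg (v y)])
    have a3 : y ∉ range stoneCechUnit := by rintro ⟨z, rfl⟩; exact hne z a1
    have a4 : y ∈ O := by
      by_contra hy
      rw [h1 hy] at a2; exact one_ne_zero a2
    have : (⟨y, a3⟩ : Remainder X) ∈ ({p} : Set _) := hOp ▸ a4
    exact congrArg Subtype.val this
  have : ∀ n : ℕ, ∃ z, u (stoneCechUnit z) < 1 / ((n : ℝ) + 1) := fun n =>
    denseRange_stoneCechUnit.exists_mem_open (isOpen_lt hu continuous_const)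
      ⟨p.1, by simp only [u, mem_setOf_eq, hp0, h0 (mem_singleton _)]; simp; positivity⟩
  choose z hz' using this
  have hlim : Tendsto (fun n => u (stoneCechUnit (z n))) atTop (𝓝 0) :=
    squeeze_zero (fun n => by positivity) (fun n => (hz' n).le)
      tendsto_one_div_add_atTop_nhds_zero_nat
  refine no_seq hX p.2 (fun n => stoneCechUnit (z n)) (fun n e => p.2 ⟨_, e⟩) ?_
  refine isCompact_univ.tendsto_nhds_of_unique_mapClusterPt (by simp) fun y _ hy => hz y ?_
  have := hy.continuousAt_comp hu.continuousAt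
  exact eq_of_nhds_neBot (this.clusterPt.mono hlim)

theorem result (X : Type u) [TopologicalSpace X] [T35Space X] (hX : Realcompact X)
    (_ : NoncompactSpace X) : IsSHD (Remainder X) := by
  intro U hU
  obtain ⟨f, hf, hinj⟩ := H83.Rec.sdr (ι := ULift.{u} ℕ) Cardinal.aleph0 (by simp)
    (fun n => U n.down) fun n => Cardinal.aleph0_le_mk_iff.2
      (infinite_open hX (hU _).1 (hU _).2).to_subtype
  refine ⟨fun n => f ⟨n⟩, fun n => hf ⟨n⟩, fun φ hφ y ht => ?_⟩
  have hi : Function.Injective fun k => f ⟨φ k⟩ := fun a b h =>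
    hφ.injective (congrArg ULift.down (hinj h))
  obtain ⟨N, hN⟩ : ∃ N, ∀ k, N ≤ k → f ⟨φ k⟩ ≠ y := by
    by_cases h : ∃ k, f ⟨φ k⟩ = y
    · obtain ⟨k, hk⟩ := h
      exact ⟨k + 1, fun j hj e => by have := hi (e.trans hk.symm); omega⟩
    · exact ⟨0, fun k _ e => h ⟨k, e⟩⟩
  refine no_seq hX y.2 (fun k => (f ⟨φ (k + N)⟩).1) (fun k e => hN _ (Nat.le_add_left _ _)
    (Subtype.ext e)) ?_
  exact ((continuous_subtype_val.tendsto y).comp ht).comp (tendsto_add_atTop_nat N)

end Pool.Agent.Results.MP_47dce7_gt.SHD
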